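import Pool.Agent.H15.IX.All

/-!
# R-equivalence on Fano complete intersections over algebraic extensions of `k((t))`

Let `k` be algebraically closed of characteristic `0`, `p` a prime number and `E` an algebraic
extension of `k((t))` which contains `m`-th roots of `t` for all `m` prime to `p` (for example the
union of the fields `k((t^(1/m)))`, `m` prime to `p`). Let `X` in `P^n` be the zero scheme over `E`
(smooth or singular) of forms of degrees `d_1, .., d_s ≥ 1` with `d_1 + .. + d_s ≤ n`. Then any two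
`E`-points of `X` are R-equivalent.
-/

set_option autoImplicit false

namespace Pool.Agent.Results.MP_b5db37_ag.FanoREquivalence

open MvPolynomial H13.RE H17.IQ

universe u

/-- The points of the subscheme `X` of projective space over the field `K` defined by the forms
`f i`. -/
def Points {K : Type u} [Field K] {n m : ℕ} (f : Fin m → MvPolynomial (Fin (n + 1)) K) :
    Set (Projectivization K (Fin (n + 1) → K)) :=
  {p | ∀ i, eval p.rep (f i) = 0}

/-- `p` and `q` are directly R-linked: there is a rational map from the projective line to `X`,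
given by polynomials `c_j(T)` on which all `f i` vanish identically, defined at two parameters
`s, t` of the line with images `p` and `q`. -/
def DirectlyLinked {K : Type u} [Field K] {n m : ℕ}
    (f : Fin m → MvPolynomial (Fin (n + 1)) K) (p q : Points f) : Prop :=
  ∃ c : Fin (n + 1) → Polynomial K, (∀ i, aeval c (f i) = 0) ∧
    ∃ (s t : K) (hs : (fun j => (c j).eval s) ≠ 0) (ht : (fun j => (c j).eval t) ≠ 0),
      Projectivization.mk K _ hs = p.1 ∧ Projectivization.mk K _ ht = q.1

section

variable {K : Type u} [Field K] {n m : ℕ} {f : Fin m → MvPolynomial (Fin (n + 1)) K}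

lemma eval_smul_form {N : ℕ} {F : MvPolynomial (Fin N) K} {e : ℕ} (hF : F.IsHomogeneous e)
    (a : K) (x : Fin N → K) : eval (a • x) F = a ^ e * eval x F := by
  rw [eval_eq', eval_eq', Finset.mul_sum]
  refine Finset.sum_congr rfl fun s hs => ?_
  have h1 : ∏ i, (a • x) i ^ s i = a ^ e * ∏ i, x i ^ s i := by
    have h2 : ∑ i, s i = e := by
      have := hF (mem_support_iff.mp hs)
      rw [Finsupp.weight_apply, Finsupp.sum_fintype] at this
      · simpa using this
      · intro i
        simp
    simp only [Pi.smul_apply, smul_eq_mul, mul_pow]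
    rw [Finset.prod_mul_distrib, Finset.prod_pow_eq_pow_sum, h2]
  rw [h1]
  ring

lemma mem_points {d : Fin m → ℕ} (hf : ∀ i, (f i).IsHomogeneous (d i)) {x : Fin (n + 1) → K}
    (hx : Pt [] f x) : Projectivization.mk K x hx.1 ∈ Points f := by
  intro i
  obtain ⟨a, ha⟩ := Projectivization.exists_smul_eq_mk_rep K x hx.1
  rw [← ha]
  have h2 := eval_smul_form (hf i) (a : K) x
  rw [hx.2.2 i, mul_zero] at h2
  exact h2

/-- the point of `X` given by a vector -/
noncomputable def toPt {d : Fin m → ℕ} (hf : ∀ i, (f i).IsHomogeneous (d i))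
    (x : Fin (n + 1) → K) (hx : Pt [] f x) : Points f :=
  ⟨Projectivization.mk K x hx.1, mem_points hf hx⟩

lemma link_toPt {d : Fin m → ℕ} (hf : ∀ i, (f i).IsHomogeneous (d i)) {a b : Fin (n + 1) → K}
    (ha : Pt [] f a) (hb : Pt [] f b) (h : Lk [] f a b) :
    DirectlyLinked f (toPt hf a ha) (toPt hf b hb) := by
  obtain ⟨c, -, hc, ⟨s, hs0, hs⟩, ⟨t, ht0, ht⟩⟩ := h
  have h0 : (fun j => (c j).eval 0) ≠ 0 := by
    rw [hs]
    exact smul_ne_zero hs0 ha.1
  have h1 : (fun j => (c j).eval 1) ≠ 0 := by
    rw [ht]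
    exact smul_ne_zero ht0 hb.1
  exact ⟨c, hc, 0, 1, h0, h1, (Projectivization.mk_eq_mk_iff' K _ _ h0 ha.1).mpr ⟨s, hs.symm⟩,
    (Projectivization.mk_eq_mk_iff' K _ _ h1 hb.1).mpr ⟨t, ht.symm⟩⟩

lemma re_points {d : Fin m → ℕ} (hf : ∀ i, (f i).IsHomogeneous (d i)) {x y : Fin (n + 1) → K}
    (h : RE [] f x y) : ∀ (hx : Pt [] f x) (hy : Pt [] f y),
      Relation.EqvGen (DirectlyLinked f) (toPt hf x hx) (toPt hf y hy) := by
  have hh := h
  unfold RE at h
  induction h with
  | rel a b hab =>
    intro hx hy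
    exact Relation.EqvGen.rel _ _ (link_toPt hf hx hy hab.2.2)
  | refl a =>
    intro hx hy
    exact Relation.EqvGen.refl _
  | symm a b h ih =>
    intro hx hy
    exact Relation.EqvGen.symm _ _ (ih h hy hx)
  | trans a b c hab hbc ih1 ih2 =>
    intro hx hy
    have hb : Pt [] f b := (RE.pt_iff hab).mp hx
    exact Relation.EqvGen.trans _ _ _ (ih1 hab hx hb) (ih2 hbc hb hy)

end

/-- R-equivalence is trivial on Fano complete intersections (smooth or singular) over an
algebraic extension `E` of `k((t))` which contains all roots of `t` of order prime to `p`. -/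
theorem result (k : Type u) [Field k] [IsAlgClosed k] [CharZero k] (E : Type u) [Field E]
    [Algebra (LaurentSeries k) E] [Algebra.IsAlgebraic (LaurentSeries k) E] (p : ℕ)
    (hp : p.Prime)
    (hE : ∀ m : ℕ, ¬ p ∣ m →
      ∃ z : E, z ^ m = algebraMap (LaurentSeries k) E (HahnSeries.single 1 1)) (n s : ℕ)
    (d : Fin s → ℕ) (f : Fin s → MvPolynomial (Fin (n + 1)) E) (hd : ∀ i, 1 ≤ d i)
    (hf : ∀ i, (f i).IsHomogeneous (d i)) (hn : ∑ i, d i ≤ n) :
    ∀ P Q : Points f, Relation.EqvGen (DirectlyLinked f) P Q := by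
  intro P Q
  have hpt : ∀ P : Points f, Pt [] f P.1.rep := fun P =>
    ⟨P.1.rep_nonzero, fun l hl => absurd hl List.not_mem_nil, P.2⟩
  have h : RE [] f P.1.rep Q.1.rep :=
    H15.IX.All.rka k E n s p d f P.1.rep Q.1.rep hp hE hd hf hn P.1.rep_nonzero
      Q.1.rep_nonzero P.2 Q.2
  have h2 := re_points hf h (hpt P) (hpt Q)
  have e : ∀ P : Points f, toPt hf P.1.rep (hpt P) = P := fun P =>
    Subtype.ext (Projectivization.mk_rep P.1)
  rw [e P, e Q] at h2
  exact h2

end Pool.Agent.Results.MP_b5db37_ag.FanoREquivalence
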