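import Pool.Agent.H15.IX.All

/-!
# Zero-cycles on Fano complete intersections over algebraic extensions of `k((t))`

Let `k` be algebraically closed of characteristic `0`, `E` any algebraic extension of `k((t))` and
`X` in `P^n` the zero scheme over `E` (smooth or singular) of forms of degrees `d_1, .., d_s ≥ 1`
with `d_1 + .. + d_s ≤ n`. If `X` has an `E`-point `x` then every zero-cycle of degree `0` on `X` is
rationally equivalent to `0`.

The definitions of zero-cycles and rational equivalence are in `Pool/Agent/H13/RE/CycleDefs.lean`.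
-/

set_option autoImplicit false

namespace Pool.Agent.Results.MP_b5db37_ag.FanoZeroCycles

open MvPolynomial H13.RE

universe u

/-- Zero-cycles of degree `0` are rationally equivalent to `0` on Fano complete intersections
(smooth or singular) over an algebraic extension `E` of `k((t))`. -/
theorem result (k : Type u) [Field k] [IsAlgClosed k] [CharZero k] (E : Type u) [Field E]
    [Algebra (LaurentSeries k) E] [Algebra.IsAlgebraic (LaurentSeries k) E] (n s : ℕ)
    (d : Fin s → ℕ) (f : Fin s → MvPolynomial (Fin (n + 1)) E) (hd : ∀ i, 1 ≤ d i)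
    (hf : ∀ i, (f i).IsHomogeneous (d i)) (hn : ∑ i, d i ≤ n)
    (x : Fin (n + 1) → E) (hx : x ≠ 0) (hx0 : ∀ i, eval x (f i) = 0) :
    ∀ z ∈ Cycles f, z.sum (fun _ a => a) = 0 → z ∈ Rat f :=
  H15.IX.All.cya k E n s d f x hd hf hn hx hx0

end Pool.Agent.Results.MP_b5db37_ag.FanoZeroCycles
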