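import Pool.Agent.H17.IQ.Cyc

/-!
# R-equivalence and zero-cycles on intersections of quadrics over `C₁` fields

Let `k` be any `C₁` field and `X` the intersection of `m` quadrics in `P^n` (smooth or singular,
the quadratic forms are arbitrary). If `n ≥ m (m + 1) / 2 + 2` (so `n ≥ 5, 8, 12, 17` for
`m = 2, 3, 4, 5`) then any two `k`-points of `X` are R-equivalent and every zero-cycle of degree
`0` on `X` is rationally equivalent to `0`.

The definitions of zero-cycles and rational equivalence are in `Pool/Agent/H13/RE/CycleDefs.lean`.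
-/

set_option autoImplicit false

namespace Pool.Agent.Results.MP_b5db37_ag.IntersectionsOfQuadrics

open MvPolynomial H13.RE

universe u

/-- The field `k` is `C₁`: every form of degree `d ≥ 1` in more than `d` variables has a
nontrivial zero. -/
def IsC1 (k : Type u) [Field k] : Prop :=
  ∀ (N d : ℕ) (f : MvPolynomial (Fin N) k), 1 ≤ d → f.IsHomogeneous d → d < N →
    ∃ x : Fin N → k, x ≠ 0 ∧ eval x f = 0

/-- The `k`-points of the subscheme `X` of projective space defined by the forms `f i`. -/
def Points {k : Type u} [Field k] {n m : ℕ} (f : Fin m → MvPolynomial (Fin (n + 1)) k) :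
    Set (Projectivization k (Fin (n + 1) → k)) :=
  {p | ∀ i, eval p.rep (f i) = 0}

/-- `p` and `q` are directly R-linked: there is a rational map from the projective line to `X`,
given by polynomials `c_j(T)` on which all `f i` vanish identically, defined at two parameters
`s, t` of the line with images `p` and `q`. -/
def DirectlyLinked {k : Type u} [Field k] {n m : ℕ}
    (f : Fin m → MvPolynomial (Fin (n + 1)) k) (p q : Points f) : Prop :=
  ∃ c : Fin (n + 1) → Polynomial k, (∀ i, aeval c (f i) = 0) ∧
    ∃ (s t : k) (hs : (fun j => (c j).eval s) ≠ 0) (ht : (fun j => (c j).eval t) ≠ 0),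
      Projectivization.mk k _ hs = p.1 ∧ Projectivization.mk k _ ht = q.1

open H17.IQ

section

variable {k : Type u} [Field k] {n m : ℕ} {f : Fin m → MvPolynomial (Fin (n + 1)) k}

lemma mem_points (hf : ∀ i, (f i).IsHomogeneous 2) {x : Fin (n + 1) → k} (hx : Pt [] f x) :
    Projectivization.mk k x hx.1 ∈ Points f := by
  intro i
  obtain ⟨a, ha⟩ := Projectivization.exists_smul_eq_mk_rep k x hx.1
  rw [← ha]
  have h2 := quad_smul (hf i) (a : k) x
  rw [hx.2.2 i, mul_zero] at h2
  exact h2

/-- the point of `X` given by a vector -/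
noncomputable def toPt (hf : ∀ i, (f i).IsHomogeneous 2) (x : Fin (n + 1) → k)
    (hx : Pt [] f x) : Points f :=
  ⟨Projectivization.mk k x hx.1, mem_points hf hx⟩

lemma link_toPt (hf : ∀ i, (f i).IsHomogeneous 2) {a b : Fin (n + 1) → k} (ha : Pt [] f a)
    (hb : Pt [] f b) (h : Lk [] f a b) : DirectlyLinked f (toPt hf a ha) (toPt hf b hb) := by
  obtain ⟨c, -, hc, ⟨s, hs0, hs⟩, ⟨t, ht0, ht⟩⟩ := h
  have h0 : (fun j => (c j).eval 0) ≠ 0 := by
    rw [hs]
    exact smul_ne_zero hs0 ha.1
  have h1 : (fun j => (c j).eval 1) ≠ 0 := by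
    rw [ht]
    exact smul_ne_zero ht0 hb.1
  exact ⟨c, hc, 0, 1, h0, h1, (Projectivization.mk_eq_mk_iff' k _ _ h0 ha.1).mpr ⟨s, hs.symm⟩,
    (Projectivization.mk_eq_mk_iff' k _ _ h1 hb.1).mpr ⟨t, ht.symm⟩⟩

lemma re_points (hf : ∀ i, (f i).IsHomogeneous 2) {x y : Fin (n + 1) → k} (h : RE [] f x y) :
    ∀ (hx : Pt [] f x) (hy : Pt [] f y),
      Relation.EqvGen (DirectlyLinked f) (toPt hf x hx) (toPt hf y hy) := by
  have hh := h
  unfold RE at h
  induction h with
  | rel a b hab =>
    intro hx hy
    exact Relation.EqvGen.rel _ _ (link_toPt hf hx hy hab.2.2)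
  | refl a =>
    intro hx hy
    exact Relation.EqvGen.refl _
  | symm a b h ih =>
    intro hx hy
    exact Relation.EqvGen.symm _ _ (ih h hy hx)
  | trans a b c hab hbc ih1 ih2 =>
    intro hx hy
    have hb : Pt [] f b := (RE.pt_iff hab).mp hx
    exact Relation.EqvGen.trans _ _ _ (ih1 hab hx hb) (ih2 hbc hb hy)

end

/-- degree of a cycle -/
noncomputable def deg {α : Type*} : (α →₀ ℤ) →+ ℤ :=
  Finsupp.liftAddHom fun _ => AddMonoidHom.id ℤ

lemma deg_eq {α : Type*} (z : α →₀ ℤ) : deg z = z.sum fun _ a => a := rfl

lemma deg_pt {k : Type u} [Field k] {n : ℕ} (E : IntermediateField k (AlgebraicClosure k))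
    [FiniteDimensional k E] (P : Fin (n + 1) → E) (hP : P ≠ 0) :
    deg (pt E P hP) = Fintype.card (E →ₐ[k] AlgebraicClosure k) := by
  unfold pt
  rw [map_sum]
  have : ∀ (q : PP (AlgebraicClosure k) n), deg (Finsupp.single q (1 : ℤ)) = 1 := by
    intro q
    rw [deg, Finsupp.liftAddHom_apply_single]
    rfl
  simp only [this]
  rw [Finset.sum_const, Finset.card_univ, nsmul_eq_mul, mul_one]

/-- Over a `C₁` field, an intersection of `m` quadrics in `P^n` with `n ≥ m (m + 1) / 2 + 2` has
trivial R-equivalence and trivial zero-cycles of degree `0`. -/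
theorem result (k : Type u) [Field k] (hk : IsC1 k) (n m : ℕ)
    (f : Fin m → MvPolynomial (Fin (n + 1)) k) (hf : ∀ i, (f i).IsHomogeneous 2)
    (hn : m * (m + 1) / 2 + 2 ≤ n) :
    (∀ p q : Points f, Relation.EqvGen (DirectlyLinked f) p q) ∧
    ∀ z ∈ Cycles f, z.sum (fun _ a => a) = 0 → z ∈ Rat f := by
  have hq : HQ k := hq_of_c1 (fun N d f h1 h2 h3 => hk N d f h1 h2 h3)
  have hrho : ([] : List (MvPolynomial (Fin (n + 1)) k)).length + rho m ≤ n + 1 := by
    have := rho_le m
    rw [List.length_nil]
    omega
  constructor
  · intro p q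
    have hpt : ∀ p : Points f, Pt [] f p.1.rep := fun p =>
      ⟨p.1.rep_nonzero, fun l hl => absurd hl List.not_mem_nil, p.2⟩
    have h := core hq m [] f (fun l hl => absurd hl List.not_mem_nil) hf hrho p.1.rep q.1.rep
      (hpt p) (hpt q)
    have h2 := re_points hf h (hpt p) (hpt q)
    have e : ∀ p : Points f, toPt hf p.1.rep (hpt p) = p := fun p =>
      Subtype.ext (Projectivization.mk_rep p.1)
    rw [e p, e q] at h2
    exact h2
  · -- a base point
    have hm2 : 2 * m < n + 1 := by
      have h1 : 4 * m ≤ m * (m + 1) + 4 := by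
        rcases Nat.lt_or_ge m 3 with h | h
        · interval_cases m <;> norm_num
        · nlinarith
      omega
    obtain ⟨y, hy0, hy⟩ := hq (n + 1) m f hf hm2
    have hyK : (fun j => algebraMap k (AlgebraicClosure k) (y j)) ≠ 0 := by
      intro h
      apply hy0
      funext j
      apply (algebraMap k (AlgebraicClosure k)).injective
      exact (congrFun h j).trans (map_zero (algebraMap k (AlgebraicClosure k))).symm
    set q₀ : PP (AlgebraicClosure k) n := Projectivization.mk _ _ hyK with hq₀
    -- every point is equivalent to a multiple of the base point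
    have key : ∀ z ∈ Cycles f, z - deg z • Finsupp.single q₀ (1 : ℤ) ∈ Rat f := by
      intro z hz
      unfold Cycles at hz
      induction hz using AddSubgroup.closure_induction with
      | mem z hz =>
        obtain ⟨E, hE, P, hP0, hP, rfl⟩ := hz
        have hS : HQ E := hq_ext hq
        have hyE : (fun j => algebraMap k E (y j)) ≠ 0 := by
          intro h
          apply hy0
          funext j
          apply (algebraMap k E).injective
          exact (congrFun h j).trans (map_zero (algebraMap k E)).symm
        have e1 : deg (pt E P hP0) • Finsupp.single q₀ (1 : ℤ) =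
            pt E (fun j => algebraMap k E (y j)) hyE := by
          rw [deg_pt]
          unfold pt
          rw [natCast_zsmul, ← Finset.card_univ, ← Finset.sum_const]
          refine Finset.sum_congr rfl fun σ _ => ?_
          congr 1
          rw [hq₀]
          refine (Projectivization.mk_eq_mk_iff' _ _ _ _ _).mpr ⟨1, ?_⟩
          rw [one_smul]
          funext j
          exact σ.commutes (y j)
        rw [e1]
        have hfE : ∀ i, (fE f E i).IsHomogeneous 2 := fun i => (hf i).map _
        have hPE : Pt [] (fE f E) P := by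
          refine ⟨hP0, fun l hl => absurd hl List.not_mem_nil, fun i => ?_⟩
          have := hP i
          rw [← MvPolynomial.aeval_map_algebraMap E P (f i), aeval_eq_eval] at this
          exact this
        have hyPt : Pt [] (fE f E) (fun j => algebraMap k E (y j)) := by
          refine ⟨hyE, fun l hl => absurd hl List.not_mem_nil, fun i => ?_⟩
          have h1 := MvPolynomial.aeval_algebraMap_apply E y (f i)
          rw [aeval_eq_eval, hy i, map_zero,
            ← MvPolynomial.aeval_map_algebraMap E _ (f i), aeval_eq_eval] at h1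
          exact h1
        exact re_rat (core hS m [] (fE f E) (fun l hl => absurd hl List.not_mem_nil) hfE (by
          have := rho_le m
          rw [List.length_nil]
          omega) P _ hPE hyPt) hPE hyPt
      | zero =>
        rw [map_zero, zero_smul, sub_zero]
        exact (Rat f).zero_mem
      | add x y _ _ hx hy =>
        have := (Rat f).add_mem hx hy
        rw [map_add, add_smul]
        have e : x + y - (deg x • Finsupp.single q₀ (1 : ℤ) + deg y • Finsupp.single q₀ (1 : ℤ)) =
            x - deg x • Finsupp.single q₀ (1 : ℤ) + (y - deg y • Finsupp.single q₀ (1 : ℤ)) := by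
          abel
        rw [e]
        exact this
      | neg x _ hx =>
        have := (Rat f).neg_mem hx
        rw [map_neg, neg_smul]
        have e : -x - -(deg x • Finsupp.single q₀ (1 : ℤ)) =
            -(x - deg x • Finsupp.single q₀ (1 : ℤ)) := by
          abel
        rw [e]
        exact this
    intro z hz h0
    have := key z hz
    rw [deg_eq, h0, zero_smul, sub_zero] at this
    exact this

end Pool.Agent.Results.MP_b5db37_ag.IntersectionsOfQuadrics
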