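import Pool.Agent.H19.QBR.Top

/-!
# R-equivalence on quadric bundles over a complete field with algebraically closed residue field

`K` is a complete discretely valued field whose residue field is algebraically closed of
characteristic different from two (for example `C((t))` or the completion of the maximal
unramified extension of `Q_p`, `p ≠ 2`; these are `C₁` fields). For a closed subset `B` of a
projective space and a bundle of quadrics of positive dimension `X → B` (all fibres may be
singular), the map `X(K)/R → B(K)/R` is bijective. In particular `X(K)/R` is one point for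
`B = P^m`, for instance for conic bundles.
-/

set_option autoImplicit false

namespace Pool.Agent.Results.MP_b5db37_ag.QuadricBundles

open scoped NormedField Valued

universe u v

section

variable {K : Type u} [Field K] {ι : Type v} {m r : ℕ}

/-- The points over the set `S` of the base `B`, the closed subset of projective space given by
the equations `g l = 0`. -/
def BasePts (g : ι → MvPolynomial (Fin (m + 1)) K)
    (S : Set (Projectivization K (Fin (m + 1) → K))) : Type u :=
  {x : Projectivization K (Fin (m + 1) → K) // x ∈ S ∧ ∀ l, MvPolynomial.eval x.rep (g l) = 0}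

/-- The points over the set `S` of the quadric bundle `∑ A i j (x) y_i y_j = 0` over `B`. -/
def TotalPts (g : ι → MvPolynomial (Fin (m + 1)) K)
    (A : Fin r → Fin r → MvPolynomial (Fin (m + 1)) K)
    (S : Set (Projectivization K (Fin (m + 1) → K))) : Type u :=
  {p : Projectivization K (Fin (m + 1) → K) × Projectivization K (Fin r → K) //
    p.1 ∈ S ∧ (∀ l, MvPolynomial.eval p.1.rep (g l) = 0) ∧
      ∑ i, ∑ j, MvPolynomial.eval p.1.rep (A i j) * p.2.rep i * p.2.rep j = 0}

/-- The projection to the base. -/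
def proj {g : ι → MvPolynomial (Fin (m + 1)) K}
    {A : Fin r → Fin r → MvPolynomial (Fin (m + 1)) K}
    {S : Set (Projectivization K (Fin (m + 1) → K))} (p : TotalPts g A S) : BasePts g S :=
  ⟨p.1.1, p.2.1, p.2.2.1⟩

/-- Two points of `B` are directly R-linked: there is a rational map from the projective line to
`B`, given by polynomials `c j (T)`, defined at two parameters with these values. -/
def BaseLinked (g : ι → MvPolynomial (Fin (m + 1)) K)
    (S : Set (Projectivization K (Fin (m + 1) → K))) (p q : BasePts g S) : Prop :=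
  ∃ c : Fin (m + 1) → Polynomial K, (∀ l, MvPolynomial.aeval c (g l) = 0) ∧
    ∃ (s t : K) (hs : (fun j => (c j).eval s) ≠ 0) (ht : (fun j => (c j).eval t) ≠ 0),
      Projectivization.mk K _ hs = p.1 ∧ Projectivization.mk K _ ht = q.1

/-- Two points of `X` are directly R-linked: there is a rational map from the projective line to
`X`, given by polynomials `c j (T)` and `e i (T)`, defined at two parameters with these values. -/
def TotalLinked (g : ι → MvPolynomial (Fin (m + 1)) K)
    (A : Fin r → Fin r → MvPolynomial (Fin (m + 1)) K)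
    (S : Set (Projectivization K (Fin (m + 1) → K))) (p q : TotalPts g A S) : Prop :=
  ∃ (c : Fin (m + 1) → Polynomial K) (e : Fin r → Polynomial K),
    (∀ l, MvPolynomial.aeval c (g l) = 0) ∧
    ∑ i, ∑ j, MvPolynomial.aeval c (A i j) * e i * e j = 0 ∧
    ∃ (s t : K) (hs : (fun j => (c j).eval s) ≠ 0) (ht : (fun j => (c j).eval t) ≠ 0)
      (hs' : (fun i => (e i).eval s) ≠ 0) (ht' : (fun i => (e i).eval t) ≠ 0),
      (Projectivization.mk K _ hs, Projectivization.mk K _ hs') = p.1 ∧
      (Projectivization.mk K _ ht, Projectivization.mk K _ ht') = q.1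

open H19.QBR

/-- the vector conditions -/
def OnX (g : ι → MvPolynomial (Fin (m + 1)) K)
    (A : Fin r → Fin r → MvPolynomial (Fin (m + 1)) K) (x : Fin (m + 1) → K) (y : Fin r → K) :
    Prop :=
  (∀ l, MvPolynomial.eval x (g l) = 0) ∧ qf (fun i j => MvPolynomial.eval x (A i j)) y = 0

variable {g : ι → MvPolynomial (Fin (m + 1)) K} {n : ι → ℕ}
  {A : Fin r → Fin r → MvPolynomial (Fin (m + 1)) K} {d : ℕ}
  {S : Set (Projectivization K (Fin (m + 1) → K))}

theorem OnX.smul (hg : ∀ l, (g l).IsHomogeneous (n l)) (hA : ∀ i j, (A i j).IsHomogeneous d)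
    {x : Fin (m + 1) → K} {y : Fin r → K} (h : OnX g A x y) (a b : K) :
    OnX g A (a • x) (b • y) := by
  constructor
  · intro l
    rw [eval_smul_homog (hg l), h.1 l, mul_zero]
  · rw [qf_smul]
    have h1 : qf (fun i j => MvPolynomial.eval (a • x) (A i j)) y =
        a ^ d * qf (fun i j => MvPolynomial.eval x (A i j)) y := by
      unfold qf
      rw [Finset.mul_sum]
      refine Finset.sum_congr rfl fun i _ => ?_
      rw [Finset.mul_sum]
      refine Finset.sum_congr rfl fun j _ => ?_
      have h3 := eval_smul_homog (hA i j) a x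
      show MvPolynomial.eval (a • x) (A i j) * y i * y j =
        a ^ d * (MvPolynomial.eval x (A i j) * y i * y j)
      rw [h3]
      ring
    rw [h1, h.2, mul_zero, mul_zero]

/-- the point with given homogeneous coordinates -/
noncomputable def toPt (hg : ∀ l, (g l).IsHomogeneous (n l))
    (hA : ∀ i j, (A i j).IsHomogeneous d)
    (x : Fin (m + 1) → K) (y : Fin r → K) (hx : x ≠ 0) (hy : y ≠ 0)
    (hS : Projectivization.mk K x hx ∈ S) (h : OnX g A x y) : TotalPts g A S :=
  ⟨(Projectivization.mk K x hx, Projectivization.mk K y hy), hS, by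
    obtain ⟨a, ha⟩ := Projectivization.exists_smul_eq_mk_rep K x hx
    obtain ⟨b, hb⟩ := Projectivization.exists_smul_eq_mk_rep K y hy
    have h2 := h.smul hg hA (a : K) (b : K)
    have ha' : (Projectivization.mk K x hx).rep = (a : K) • x := ha.symm
    have hb' : (Projectivization.mk K y hy).rep = (b : K) • y := hb.symm
    show (∀ l, MvPolynomial.eval (Projectivization.mk K x hx).rep (g l) = 0) ∧ _
    rw [ha', hb']
    exact h2⟩

theorem onX_rep (p : TotalPts g A S) : OnX g A p.1.1.rep p.1.2.rep := ⟨p.2.2.1, p.2.2.2⟩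

theorem toPt_rep (hg : ∀ l, (g l).IsHomogeneous (n l)) (hA : ∀ i j, (A i j).IsHomogeneous d)
    (p : TotalPts g A S) (hS : Projectivization.mk K p.1.1.rep p.1.1.rep_nonzero ∈ S) :
    toPt hg hA p.1.1.rep p.1.2.rep p.1.1.rep_nonzero p.1.2.rep_nonzero hS (onX_rep p) = p := by
  apply Subtype.ext
  exact Prod.ext (Projectivization.mk_rep _) (Projectivization.mk_rep _)

/-- A curve in a fibre. -/
theorem fl_linked (hg : ∀ l, (g l).IsHomogeneous (n l)) (hA : ∀ i j, (A i j).IsHomogeneous d)
    (x : Fin (m + 1) → K) (hx : x ≠ 0) (hS : Projectivization.mk K x hx ∈ S)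
    (v w : Fin r → K) (hv : v ≠ 0) (hw : w ≠ 0) (h1 : OnX g A x v) (h2 : OnX g A x w)
    (h : FL (fun i j => MvPolynomial.eval x (A i j)) v w) :
    TotalLinked g A S (toPt hg hA x v hx hv hS h1) (toPt hg hA x w hx hw hS h2) := by
  obtain ⟨e, he, ⟨α, hα, hα2⟩, ⟨β, hβ, hβ2⟩⟩ := h
  have hc : ∀ p : MvPolynomial (Fin (m + 1)) K,
      MvPolynomial.aeval (fun j => (Polynomial.C (x j) : Polynomial K)) p =
        Polynomial.C (MvPolynomial.eval x p) := by
    intro p
    have := MvPolynomial.comp_aeval_apply (B := Polynomial K) (f := x)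
      (Algebra.ofId K (Polynomial K)) p
    exact this.symm
  have hev : ∀ s : K, (fun j => ((Polynomial.C (x j) : Polynomial K)).eval s) = x := by
    intro s
    funext j
    exact Polynomial.eval_C
  refine ⟨fun j => Polynomial.C (x j), e, ?_, ?_, 0, 1, by rw [hev]; exact hx,
    by rw [hev]; exact hx, by rw [hα2]; exact smul_ne_zero hα hv,
    by rw [hβ2]; exact smul_ne_zero hβ hw, ?_, ?_⟩
  · intro l
    rw [hc, h1.1 l, map_zero]
  · simp only [hc]
    exact he
  · apply Prod.ext
    · show Projectivization.mk K _ _ = Projectivization.mk K x hx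
      congr 1
      exact hev 0
    · exact (Projectivization.mk_eq_mk_iff' K _ _ _ _).mpr ⟨α, hα2.symm⟩
  · apply Prod.ext
    · show Projectivization.mk K _ _ = Projectivization.mk K x hx
      congr 1
      exact hev 1
    · exact (Projectivization.mk_eq_mk_iff' K _ _ _ _).mpr ⟨β, hβ2.symm⟩

/-- Points of the same fibre are R-equivalent. -/
theorem same_fibre (hr : 3 ≤ r) (hg : ∀ l, (g l).IsHomogeneous (n l))
    (hA : ∀ i j, (A i j).IsHomogeneous d) (p q : TotalPts g A S) (hpq : p.1.1 = q.1.1) :
    Relation.EqvGen (TotalLinked g A S) p q := by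
  have hSp : Projectivization.mk K p.1.1.rep p.1.1.rep_nonzero ∈ S := by
    rw [Projectivization.mk_rep]
    exact p.2.1
  have hq : OnX g A p.1.1.rep q.1.2.rep := by
    rw [hpq]
    exact onX_rep q
  have e1 := toPt_rep hg hA p hSp
  have e2 : toPt hg hA p.1.1.rep q.1.2.rep p.1.1.rep_nonzero q.1.2.rep_nonzero hSp hq = q := by
    apply Subtype.ext
    apply Prod.ext
    · show Projectivization.mk K p.1.1.rep _ = q.1.1
      rw [Projectivization.mk_rep, hpq]
    · exact Projectivization.mk_rep _
  rcases fibre_link hr (fun i j => MvPolynomial.eval p.1.1.rep (A i j)) p.1.2.rep q.1.2.rep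
    (onX_rep p).2 hq.2 with h | ⟨w, hw, hw2, h1, h2⟩
  · have := fl_linked hg hA p.1.1.rep p.1.1.rep_nonzero hSp _ _ p.1.2.rep_nonzero
      q.1.2.rep_nonzero (onX_rep p) hq h
    rw [e1, e2] at this
    exact Relation.EqvGen.rel _ _ this
  · have hwX : OnX g A p.1.1.rep w := ⟨(onX_rep p).1, hw2⟩
    have k1 := fl_linked hg hA p.1.1.rep p.1.1.rep_nonzero hSp _ _ p.1.2.rep_nonzero hw
      (onX_rep p) hwX h1
    have k2 := fl_linked hg hA p.1.1.rep p.1.1.rep_nonzero hSp _ _ hw q.1.2.rep_nonzero
      hwX hq h2
    rw [e1] at k1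
    rw [e2] at k2
    exact Relation.EqvGen.trans _ _ _ (Relation.EqvGen.rel _ _ k1) (Relation.EqvGen.rel _ _ k2)

end

section

open H19.QBR

variable {K : Type u} [NontriviallyNormedField K] [IsUltrametricDist K] [CompleteSpace K]
  {ι : Type v} {m r : ℕ} {g : ι → MvPolynomial (Fin (m + 1)) K} {n : ι → ℕ}
  {A : Fin r → Fin r → MvPolynomial (Fin (m + 1)) K} {d : ℕ}
  {S : Set (Projectivization K (Fin (m + 1) → K))}

/-- Every point of the base lifts. -/
theorem proj_surjective (hK : Base K) (hr : 3 ≤ r) (hg : ∀ l, (g l).IsHomogeneous (n l))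
    (hA : ∀ i j, (A i j).IsHomogeneous d) (b : BasePts g S) :
    ∃ p : TotalPts g A S, proj p = b := by
  obtain ⟨y, hy, hq⟩ := exists_isotropic hK hr (fun i j => MvPolynomial.eval b.1.rep (A i j))
  have hS : Projectivization.mk K b.1.rep b.1.rep_nonzero ∈ S := by
    rw [Projectivization.mk_rep]
    exact b.2.1
  refine ⟨toPt hg hA b.1.rep y b.1.rep_nonzero hy hS ⟨b.2.2, hq⟩, ?_⟩
  apply Subtype.ext
  exact Projectivization.mk_rep _

/-- Directly linked points of the base have linked points above them. -/
theorem linked_lift (hK : Base K) (hr : 3 ≤ r) (hg : ∀ l, (g l).IsHomogeneous (n l))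
    (hA : ∀ i j, (A i j).IsHomogeneous d) (b b' : BasePts g S) (h : BaseLinked g S b b') :
    ∃ p p' : TotalPts g A S, proj p = b ∧ proj p' = b' ∧ TotalLinked g A S p p' := by
  obtain ⟨c, hc, s, t, hs, ht, hb, hb'⟩ := h
  obtain ⟨c', Z, hc', hq, ⟨α, hα, hα2⟩, ⟨β, hβ, hβ2⟩, hZ0, hZ1⟩ :=
    base_link hK hr g n hg A d hA c hc s t
  have h0 : (fun j => (c' j).eval 0) ≠ 0 := by rw [hα2]; exact smul_ne_zero hα hs
  have h1 : (fun j => (c' j).eval 1) ≠ 0 := by rw [hβ2]; exact smul_ne_zero hβ ht
  have e0 : Projectivization.mk K _ h0 = b.1 := by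
    rw [← hb]
    exact (Projectivization.mk_eq_mk_iff' K _ _ _ _).mpr ⟨α, hα2.symm⟩
  have e1 : Projectivization.mk K _ h1 = b'.1 := by
    rw [← hb']
    exact (Projectivization.mk_eq_mk_iff' K _ _ _ _).mpr ⟨β, hβ2.symm⟩
  have hon : ∀ a : K, OnX g A (fun j => (c' j).eval a) (fun i => (Z i).eval a) := by
    intro a
    have hev : ∀ p : MvPolynomial (Fin (m + 1)) K,
        MvPolynomial.eval (fun j => (c' j).eval a) p =
          (MvPolynomial.aeval c' p : Polynomial K).eval a := by
      intro p
      have := MvPolynomial.comp_aeval_apply (B := K) (f := c')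
        (Polynomial.aeval a : Polynomial K →ₐ[K] K) p
      simp only [Polynomial.coe_aeval_eq_eval] at this
      exact this.symm
    constructor
    · intro l
      rw [hev, hc' l, Polynomial.eval_zero]
    · simp only [hev]
      have := map_qf (Polynomial.evalRingHom a) (fun i j => MvPolynomial.aeval c' (A i j)) Z
      rw [hq, map_zero] at this
      exact this.symm
  refine ⟨toPt hg hA _ _ h0 hZ0 (by rw [e0]; exact b.2.1) (hon 0),
    toPt hg hA _ _ h1 hZ1 (by rw [e1]; exact b'.2.1) (hon 1), Subtype.ext e0, Subtype.ext e1,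
    c', Z, hc', hq, 0, 1, h0, h1, hZ0, hZ1, rfl, rfl⟩

theorem eqv_lift (hK : Base K) (hr : 3 ≤ r) (hg : ∀ l, (g l).IsHomogeneous (n l))
    (hA : ∀ i j, (A i j).IsHomogeneous d) (b b' : BasePts g S)
    (h : Relation.EqvGen (BaseLinked g S) b b') : ∀ p q : TotalPts g A S, proj p = b →
    proj q = b' → Relation.EqvGen (TotalLinked g A S) p q := by
  have hfib : ∀ (p q : TotalPts g A S), proj p = proj q →
      Relation.EqvGen (TotalLinked g A S) p q := fun p q h =>
    same_fibre hr hg hA p q (congrArg Subtype.val h)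
  induction h with
  | rel b b' hbb =>
    intro p q hp hq
    obtain ⟨p', q', hp', hq', hl⟩ := linked_lift hK hr hg hA b b' hbb
    exact Relation.EqvGen.trans _ _ _ (hfib p p' (hp.trans hp'.symm))
      (Relation.EqvGen.trans _ _ _ (Relation.EqvGen.rel _ _ hl) (hfib q' q (hq'.trans hq.symm)))
  | refl b =>
    intro p q hp hq
    exact hfib p q (hp.trans hq.symm)
  | symm b b' _ ih =>
    intro p q hp hq
    exact Relation.EqvGen.symm _ _ (ih q p hq hp)
  | trans b b' b'' _ _ ih1 ih2 =>
    intro p q hp hq
    obtain ⟨s, hs⟩ := proj_surjective (A := A) hK hr hg hA b'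
    exact Relation.EqvGen.trans _ _ _ (ih1 p s hp hs) (ih2 s q hs hq)

theorem eqv_proj (p q : TotalPts g A S) (h : Relation.EqvGen (TotalLinked g A S) p q) :
    Relation.EqvGen (BaseLinked g S) (proj p) (proj q) := by
  induction h with
  | rel p q hpq =>
    obtain ⟨c, e, hc, -, s, t, hs, ht, hs', ht', h1, h2⟩ := hpq
    exact Relation.EqvGen.rel _ _ ⟨c, hc, s, t, hs, ht, congrArg Prod.fst h1,
      congrArg Prod.fst h2⟩
  | refl p => exact Relation.EqvGen.refl _
  | symm p q _ ih => exact Relation.EqvGen.symm _ _ ih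
  | trans p q s _ _ ih1 ih2 => exact Relation.EqvGen.trans _ _ _ ih1 ih2

/-- Points of projective space are joined by lines. -/
theorem line_linked [IsEmpty ι] (b b' : BasePts g S) : BaseLinked g S b b' := by
  have h0 : (fun j => ((Polynomial.C (b.1.rep j) * (1 - Polynomial.X) +
      Polynomial.C (b'.1.rep j) * Polynomial.X : Polynomial K)).eval 0) = b.1.rep := by
    funext j
    simp
  have h1 : (fun j => ((Polynomial.C (b.1.rep j) * (1 - Polynomial.X) +
      Polynomial.C (b'.1.rep j) * Polynomial.X : Polynomial K)).eval 1) = b'.1.rep := by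
    funext j
    simp
  refine ⟨fun j => Polynomial.C (b.1.rep j) * (1 - Polynomial.X) +
    Polynomial.C (b'.1.rep j) * Polynomial.X, fun l => (IsEmpty.false l).elim, 0, 1,
    by rw [h0]; exact b.1.rep_nonzero, by rw [h1]; exact b'.1.rep_nonzero, ?_, ?_⟩
  · conv_rhs => rw [← Projectivization.mk_rep b.1]
    congr 1
  · conv_rhs => rw [← Projectivization.mk_rep b'.1]
    congr 1

end

open H19.QBR in
/-- Let `K` be complete with respect to a discrete valuation, with algebraically closed residue
field of characteristic different from two. Let `B` be the closed subset of projective space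
given by forms `g l`, let `A i j` be forms of the same degree, `i, j < r`, `r ≥ 3`, and let
`X → B` be the quadric bundle `∑ A i j (x) y_i y_j = 0`. Then `X(K)/R → B(K)/R` is bijective, also
if only the points over a given set `S` of points of the base are considered. If `B` is the
whole projective space, then `X(K)/R` has at most one element. -/
theorem result (K : Type u) [NontriviallyNormedField K] [IsUltrametricDist K] [CompleteSpace K]
    [IsDiscreteValuationRing 𝒪[K]] [IsAlgClosed 𝓀[K]] (h2 : (2 : 𝓀[K]) ≠ 0)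
    (m r : ℕ) (hr : 3 ≤ r) (ι : Type v) (g : ι → MvPolynomial (Fin (m + 1)) K) (n : ι → ℕ)
    (hg : ∀ l, (g l).IsHomogeneous (n l)) (A : Fin r → Fin r → MvPolynomial (Fin (m + 1)) K)
    (d : ℕ) (hA : ∀ i j, (A i j).IsHomogeneous d)
    (S : Set (Projectivization K (Fin (m + 1) → K))) :
    (∀ b : BasePts g S, ∃ p : TotalPts g A S, proj p = b) ∧
      (∀ p q : TotalPts g A S, Relation.EqvGen (TotalLinked g A S) p q ↔
        Relation.EqvGen (BaseLinked g S) (proj p) (proj q)) ∧
      (IsEmpty ι → ∀ p q : TotalPts g A S, Relation.EqvGen (TotalLinked g A S) p q) := by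
  have hK : Base K := base_of_dvr h2
  have h := fun p q : TotalPts g A S => fun h =>
    eqv_lift hK hr hg hA (proj p) (proj q) h p q rfl rfl
  exact ⟨proj_surjective hK hr hg hA, fun p q => ⟨eqv_proj p q, h p q⟩,
    fun _ p q => h p q (Relation.EqvGen.rel _ _ (line_linked _ _))⟩

end Pool.Agent.Results.MP_b5db37_ag.QuadricBundles
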